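import Pool.Agent.R351.GD.E.Tup

/-!
# The elliptic analogue of Schanuel's conjecture on the groups generated by almost all tuples of points: growing degrees

Let `E` be the elliptic curve `y² = 4 x³ - g₂ x - g₃` with rational `g₂`, `g₃` and let `Λ` be its lattice. We consider
`k`-tuples `α` of algebraic integers of degree at most `m` all of whose conjugates are at most `T` in absolute value, distinct
natural numbers `θ_1, …, θ_r`, and all elliptic logarithms `l_{ij}` of the `k r` points of `E` with the abscissas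
`α_i + θ_j`. Let `Γ = Λ + ∑ ℤ l_{ij}` be the group of the elliptic logarithms of all points of the group which these points
generate. We show that for all but a proportion `C T^(-1/(δ + 2)^C)` of the tuples `α` the following is true for all the
groups `Γ`: for every `n` and all `p_1, …, p_n` in `Γ` which are linearly independent over `ℤ` modulo `Λ`, every polynomial
relation of degree at most `δ`, over a number field of degree at most `δ`, between arbitrary constants `w_1, …, w_q` and the
`4 n` numbers `p_i`, `ζ(p_i)`, `℘(p_i)`, `℘'(p_i)` is an identity in the `2 n` numbers `p_i`, `ζ(p_i)`. There is no bound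
for the integral coefficients of the `p_i` with respect to the `l_{ij}`, and `C` depends on `Λ`, `k`, `r`, `θ`, `q` and `m`
only: it does not depend on `δ`, `n`, `w` and `T`.

So the bound `2 n` of the elliptic analogue of Schanuel's conjecture holds in degree `δ` for all independent points of `Γ`,
even relative to the constants `w` (for instance the periods and quasi-periods of `E`), and `δ` may be as large as a fixed
power of `log T / log log T`.

The proof: for the points `l_{ij}` themselves this is a theorem on the values of G-functions at algebraic points with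
polynomial bounds in the degree of the relation (the modules `Pool.Agent.R351.GD`; the starting library, project SL of
helper916 and others, has a version for fixed degrees). By the addition theorem the numbers `ζ(p)` of the points of `Γ` are
integral combinations of the `ζ(l_{ij})`, of the quasi-periods and of a number of the field generated by the coordinates of
the points `l_{ij}` and of the points of order `2` (`Pool.Agent.W245.EB.Zt` of the starting library), and the matrix of
the coefficients has a right inverse.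
-/

set_option autoImplicit false

open scoped PeriodPair

namespace Pool.Agent.Results.MP_2ad15a_nt.GrowingDegreeSubgroups

/-- The Weierstrass zeta function `ζ(z) = ∑ (1/(z-l) + 1/l + z/l²)`, the sum over the lattice (the summand of `l = 0` is
`1/z`, since `1/0 = 0` in Lean). -/
noncomputable def zeta (Λ : PeriodPair) (z : ℂ) : ℂ := ∑' l : Λ.lattice, (1 / (z - l) + 1 / l + z / l ^ 2)

/-- The algebraic integers of degree at most `m` all of whose conjugates have absolute value at most `T`. -/
def integers (m T : ℕ) : Set ℂ :=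
  {α | IsIntegral ℤ α ∧ (minpoly ℚ α).natDegree ≤ m ∧ ∀ z : ℂ, Polynomial.aeval z (minpoly ℚ α) = 0 → ‖z‖ ≤ T}

/-- The numbers `p_i`, `ζ(p_i)`. -/
noncomputable def logarithms (Λ : PeriodPair) {n : ℕ} (p : Fin n → ℂ) : Fin n × Fin 2 → ℂ :=
  fun a => ![p a.1, zeta Λ (p a.1)] a.2

/-- The numbers `℘(p_i)`, `℘'(p_i)`. -/
noncomputable def points (Λ : PeriodPair) {n : ℕ} (p : Fin n → ℂ) : Fin n × Fin 2 → ℂ :=
  fun a => ![℘[Λ] (p a.1), ℘'[Λ] (p a.1)] a.2

/-- Every polynomial relation of degree `≤ δ` over a number field of degree `≤ δ` between the constants `w`, the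
`logarithms` and the `points` of `p` is an identity in the logarithms. -/
def FreeOverPoints (Λ : PeriodPair) (δ : ℕ) {q n : ℕ} (w : Fin q → ℂ) (p : Fin n → ℂ) : Prop :=
  ∀ L : IntermediateField ℚ ℂ, FiniteDimensional ℚ L → Module.finrank ℚ L ≤ δ →
  ∀ P : MvPolynomial (Fin q ⊕ ((Fin n × Fin 2) ⊕ (Fin n × Fin 2))) L, P.totalDegree ≤ δ →
  MvPolynomial.aeval (Sum.elim w (Sum.elim (logarithms Λ p) (points Λ p))) P = 0 →
  ∀ v : Fin n × Fin 2 → ℂ, MvPolynomial.aeval (Sum.elim w (Sum.elim v (points Λ p))) P = 0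

/-- The `l_{ij}` are elliptic logarithms of points with the abscissas `α_i + θ_j`. -/
def IsLogs (Λ : PeriodPair) {k r : ℕ} (θ : Fin r → ℕ) (α : Fin k → ℂ) (l : Fin k × Fin r → ℂ) : Prop :=
  ∀ c, l c ∉ Λ.lattice ∧ ℘[Λ] (l c) = α c.1 + θ c.2

/-- The `p_j` belong to the group `Λ + ∑ ℤ l_{ij}`. -/
def InGroup (Λ : PeriodPair) {k r n : ℕ} (l : Fin k × Fin r → ℂ) (p : Fin n → ℂ) : Prop :=
  ∀ j, ∃ A : Fin k × Fin r → ℤ, p j - ∑ c, (A c : ℂ) * l c ∈ Λ.lattice

/-- The `p_j` are linearly independent over `ℤ` modulo `Λ`. -/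
def Independent (Λ : PeriodPair) {n : ℕ} (p : Fin n → ℂ) : Prop :=
  ∀ c : Fin n → ℤ, ∑ j, (c j : ℂ) * p j ∈ Λ.lattice → c = 0

/-- Let `Λ` be a lattice with rational invariants, `m ≥ 1`, and let `θ_1, …, θ_r` be distinct natural numbers. For all `k`,
`q` there is `C` such that for all `δ`, all complex `w_1, …, w_q` and all `T ≥ 1`, for all but at most a proportion
`C T^(-1/(δ + 2)^C)` of the `k`-tuples `α` of algebraic integers of degree at most `m` with conjugates at most `T`, all
families `p_1, …, p_n` (`n` arbitrary) in all the groups `Λ + ∑ ℤ l_{ij}`, `℘(l_{ij}) = α_i + θ_j`, which are independent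
modulo `Λ` are free over their points and `w`, for relations of degree at most `δ` over number fields of degree at most
`δ`. -/
theorem result (Λ : PeriodPair) (a b : ℚ) (ha : Λ.g₂ = a) (hb : Λ.g₃ = b) (m k r q : ℕ) (hm : 1 ≤ m) (θ : Fin r → ℕ)
    (hθ : Function.Injective θ) :
    ∃ C : ℕ, ∀ (δ : ℕ) (w : Fin q → ℂ) (T : ℕ), 1 ≤ T →
      (integers m T).Finite ∧
      ({α : Fin k → ℂ | (∀ i, α i ∈ integers m T) ∧ ¬ ∀ l : Fin k × Fin r → ℂ, IsLogs Λ θ α l →
        ∀ (n : ℕ) (p : Fin n → ℂ), InGroup Λ l p → Independent Λ p → FreeOverPoints Λ δ w p}.ncard : ℝ) ≤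
        C * (T : ℝ) ^ (-(1 / ((δ : ℝ) + 2) ^ C)) * ((integers m T).ncard : ℝ) ^ k := by
  obtain ⟨c₁, hc₁, h₁⟩ := Pool.Agent.Y916.Sl.many m hm
  obtain ⟨C, h⟩ := Pool.Agent.R351.GD.tupG_exp Λ a b ha hb k q m hm θ hθ
  obtain ⟨C', hC'⟩ := exists_nat_ge ((C : ℝ) / c₁ ^ k)
  refine ⟨C + C', fun δ w T hT => ⟨Pool.Agent.Y916.Sl.sint_fin m T, ?_⟩⟩
  obtain ⟨hf, hle⟩ := h δ w T hT
  have hT1 : (1 : ℝ) ≤ T := by exact_mod_cast hT
  have h2 := hle.trans (Pool.Agent.Y916.Sl.prop_bound hc₁ (Nat.cast_nonneg C) hT (h₁ T hT))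
  refine le_trans ?_ (h2.trans ?_)
  · refine Nat.cast_le.2 (Set.ncard_le_ncard ?_ hf)
    rintro α ⟨hα1, hα2⟩
    refine ⟨fun i => Pool.Agent.Y916.Sl.SInt.aint (hα1 i), ?_⟩
    simp only [not_forall] at hα2
    obtain ⟨l, hl, n, p, hp, hi, hF⟩ := hα2
    choose A hA using hp
    exact ⟨l, hl, n, p, A, hA, hi, hF⟩
  · have hδ : (1 : ℝ) ≤ (δ : ℝ) + 2 := by
      have : (0 : ℝ) ≤ δ := Nat.cast_nonneg δ
      linarith
    have h3 : 1 / ((δ : ℝ) + 2) ^ (C + C') ≤ 1 / ((δ : ℝ) + 2) ^ C :=
      one_div_le_one_div_of_le (by positivity) (pow_le_pow_right₀ hδ (Nat.le_add_right _ _))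
    have h4 : (T : ℝ) ^ (-(1 / ((δ : ℝ) + 2) ^ C)) ≤ (T : ℝ) ^ (-(1 / ((δ : ℝ) + 2) ^ (C + C'))) :=
      Real.rpow_le_rpow_of_exponent_le hT1 (by linarith)
    have h5 : (C : ℝ) / c₁ ^ k ≤ ((C + C' : ℕ) : ℝ) := by
      push_cast
      have : (0 : ℝ) ≤ C := Nat.cast_nonneg C
      linarith
    refine mul_le_mul_of_nonneg_right ?_ (by positivity)
    exact mul_le_mul h5 h4 (by positivity) (Nat.cast_nonneg _)

end Pool.Agent.Results.MP_2ad15a_nt.GrowingDegreeSubgroups
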