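import Pool.Agent.R437.Met.Tup
import Pool.Agent.Results.MP_2ad15a_nt.NumberFieldTuples

/-!
# Elliptic logarithms of the tuples of elements of a number field near a given point

Let `k` be a number field in `ℂ`, let `L_1, …, L_n` be lattices, `p_j` analytic branches of the inverse
functions of the `℘_j` on open connected sets `S_j`, and `λ_1, …, λ_r` complex numbers linearly independent
over `ℚ`. For every `τ > 0` and all `ξ` in `S_1 × ⋯ × S_n` outside a set of Hausdorff dimension at most
`2 (n - 1) / τ` the tuples `x` in `k ^ n` of large height `T` with `|ξ_j - x_j| ≤ C T ^ (-τ)` have the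
following property: the `n (r + 2) + 1` numbers `π`, `p_j (x_j)`, `ζ_j (p_j (x_j))`, `exp (λ_l p_j (x_j))`
satisfy no polynomial relation of degree at most `d` with coefficients in `k` of height at most `T ^ A`, not
even approximately, up to `T ^ (-B)`. For `n = 1` the exceptional set has dimension zero, for every `τ > 0`.
The starting file `NumberFieldTuples` bounds the number of the exceptional `x` of height at most `T` by
`C T ^ ε N(T) ^ (n - 1)`, where `N(T)` is the number of elements of `k` of height at most `T`.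
-/

set_option autoImplicit false

namespace Pool.Agent.Results.MP_2ad15a_nt.NearEveryPoint

open Pool.Agent.R437.Met

/-- The Weierstrass zeta function `ζ(z) = ∑ (1/(z-l) + 1/l + z/l²)`, the sum over the lattice (the summand
of `l = 0` is `1/z`, since `1/0 = 0` in Lean). -/
noncomputable def zeta (L : PeriodPair) (z : ℂ) : ℂ :=
  ∑' l : L.lattice, (1 / (z - l) + 1 / l + z / l ^ 2)

/-- The `n (r + 2) + 1` numbers `π`, `exp (λ_l p_j (x_j))`, `p_j (x_j)`, `ζ_j (p_j (x_j))`, where `x_j` is
read as a complex number by the embedding `σ`. -/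
noncomputable def numbers {k : Type} [Field k] (σ : k →+* ℂ) {n r : ℕ} (L : Fin n → PeriodPair)
    (lam : Fin r → ℂ) (p : Fin n → ℂ → ℂ) (x : Fin n → k) : Option (Fin n × (Fin r ⊕ Fin 2)) → ℂ
  | none => (Real.pi : ℂ)
  | some (j, Sum.inl l) => Complex.exp (lam l * p j (σ (x j)))
  | some (j, Sum.inr 0) => p j (σ (x j))
  | some (j, Sum.inr 1) => zeta (L j) (p j (σ (x j)))

/-- Some nonzero polynomial in `n (r + 2) + 1` variables, with coefficients in `k` of height at most
`T ^ A` and of degree at most `d` in each variable, takes at the `n (r + 2) + 1` numbers a value of absolute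
value at most `T ^ (-B)`. -/
def Related {k : Type} [Field k] [NumberField k] (σ : k →+* ℂ) {n r : ℕ} (L : Fin n → PeriodPair)
    (lam : Fin r → ℂ) (p : Fin n → ℂ → ℂ) (d : ℕ) (A B T : ℝ) (x : Fin n → k) : Prop :=
  ∃ P : MvPolynomial (Option (Fin n × (Fin r ⊕ Fin 2))) k, P ≠ 0 ∧ (∀ i, P.degreeOf i ≤ d) ∧
    (∀ e, Height.mulHeight₁ (P.coeff e) ≤ T ^ A) ∧
    ‖MvPolynomial.eval₂ σ (numbers σ L lam p x) P‖ ≤ T ^ (-B)

/-- **Tuples of elements of a number field near a given point.** Let `k` be a number field with an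
embedding `σ` in `ℂ`, `n ≥ 1`, let `L_1, …, L_n` be lattices, `λ_1, …, λ_r` complex numbers linearly
independent over `ℚ`, `S_j` open connected subsets of `ℂ`, `p_j` analytic on `S_j` with values outside `L_j`
and `℘_j (p_j (t)) = t`. For every `τ > 0` there is a set `E` of Hausdorff dimension at most
`2 (n - 1) / τ` such that for all `ξ` in `S_1 × ⋯ × S_n` outside `E`, all `d` and `A` there is `B` such that
for all `C` and all large `T`: for the `x` in `k ^ n` of heights at most `T` with
`|ξ_j - σ(x_j)| ≤ C T ^ (-τ)` for all `j` no nonzero polynomial with coefficients in `k` of height at most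
`T ^ A`, of degree at most `d` in each variable, takes at the numbers `π`, `exp (λ_l p_j (x_j))`,
`p_j (x_j)`, `ζ_j (p_j (x_j))` a value of absolute value at most `T ^ (-B)`. -/
theorem result (k : Type) [Field k] [NumberField k] (σ : k →+* ℂ) (n r : ℕ) (hn : 1 ≤ n)
    (L : Fin n → PeriodPair) (lam : Fin r → ℂ)
    (hlam : ∀ c : Fin r → ℤ, ∑ l, (c l : ℂ) * lam l = 0 → c = 0)
    (S : Fin n → Set ℂ) (hSo : ∀ j, IsOpen (S j)) (hSc : ∀ j, IsConnected (S j))
    (p : Fin n → ℂ → ℂ) (hp : ∀ j, AnalyticOnNhd ℂ (p j) (S j))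
    (hpL : ∀ j, ∀ t ∈ S j, p j t ∉ (L j).lattice)
    (hpt : ∀ j, ∀ t ∈ S j, (L j).weierstrassP (p j t) = t) (τ : ℝ) (hτ : 0 < τ) :
    ∃ E : Set (Fin n → ℂ), dimH E ≤ ENNReal.ofReal (2 * ((n : ℝ) - 1) / τ) ∧
      ∀ ξ : Fin n → ℂ, (∀ j, ξ j ∈ S j) → ξ ∉ E → ∀ (d : ℕ) (A : ℝ), ∃ B : ℝ, ∀ C : ℝ, ∃ T₁ : ℝ,
        ∀ T : ℝ, T₁ ≤ T → ∀ x : Fin n → k,
          (∀ j, Height.mulHeight₁ (x j) ≤ T ∧ ‖ξ j - σ (x j)‖ ≤ C * T ^ (-τ)) →
            ¬ Related σ L lam p d A B T x := by
  refine Tup.tuple_poly k σ n hn S hSo (numbers σ L lam p) (fun K hK hKS d A ε hε => ?_) τ hτ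
  obtain ⟨D, B, C, h⟩ := NumberFieldTuples.result k σ n r d hn L lam hlam S hSo hSc p hp hpL hpt K hK
    hKS A ε hε
  refine ⟨B, C, fun T hT => ?_⟩
  obtain ⟨-, h1, h2⟩ := h T hT
  have hset : {x : Fin n → k | (∀ j, σ (x j) ∈ K j ∧ Height.mulHeight₁ (x j) ≤ T) ∧
      Tup.PolyRel σ (numbers σ L lam p x) d A B T} =
      NumberFieldTuples.Exceptional σ d L lam p K A B T := by
    have heq : ∀ x : Fin n → k, numbers σ L lam p x = NumberFieldTuples.numbers σ L lam p x := by
      intro x
      funext i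
      rcases i with _ | ⟨j, l | i⟩
      · rfl
      · rfl
      · fin_cases i <;> rfl
    ext x
    simp only [NumberFieldTuples.Exceptional, Tup.PolyRel, Set.mem_ofPred_eq, heq]
  rw [hset]
  exact ⟨h1, h2⟩

end Pool.Agent.Results.MP_2ad15a_nt.NearEveryPoint
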