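import Pool.Agent.R349.Short2

/-!
# The elliptic Schanuel conjecture on arbitrary analytic curves: a bounded number of exceptions in small discs

Let `Ω_1, …, Ω_n` be arbitrary lattices, equal or different, with arbitrary complex invariants. For each `j` let
`p_(j1), …, p_(jr)`, `r = r_j`, be analytic functions on a connected open set `U_j` with values outside `Ω_j`, such that
no nontrivial combination of them with coefficients in `End(ℂ / Ω_j)` is constant. There is no other condition: the
`p_(ji)` may be algebraic functions, for instance `p_(ji)(x) = α_i x + β_i` with `α_i` linearly independent over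
`ℚ ⊗ End`, but also elliptic logarithms of algebraic points or arbitrary transcendental functions.

For points `p_1, …, p_r` the elliptic Schanuel conjecture says that at least `2 r` of the `3 r` numbers
`p_i, ℘(p_i), ζ(p_i)` are algebraically independent, if `g₂, g₃` are algebraic. We prove that `2 r_j` fixed functions
among the `3 r_j` functions `p_(ji), ℘(p_(ji)), ζ(p_(ji))` have this property in bounded degree and height at algebraic
arguments `x`, with **at most `C` exceptions in each disc of radius `T ^ (-δ)`**, `T` the height and `δ > 0` arbitrary: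
let `X_1, …, X_n` be finite sets of elements `x` of a number field `F` of degree at most `m`, of height at most `T`, with
images in compact sets `K_j`, each of the `X_j` of diameter at most `T ^ (-δ)`; for instance all elements of `X_j` can be
fractions with one fixed denominator `T`. All but `C ∑_j ∏_(i ≠ j) |X_i|` of the tuples of `X_1 × … × X_n` are good, and
there is a good one if all `|X_j| > C`; here `C` does not depend on `T`, `F` and the `X_j`. Good means that the
`∑ 2 r_j` numbers satisfy no polynomial relation, not even an approximate one, of degree at most `d` and height at most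
`T ^ A` whose coefficients are combinations of given complex numbers `ξ_1, …, ξ_g` (for instance of monomials in the
`g₂, g₃`, the periods and quasi-periods), and together with `π` no relation over `F`.

The proof uses Ax's theorem for elliptic curves and their extensions by vector groups, relative to countable fields of
constants (`Pool.Agent.Y776.Cv.fix_sub`), and a determinant method for small discs (`Pool.Agent.R349.Gen.shortS`).
-/

set_option autoImplicit false

open NumberField
open scoped PeriodPair

namespace Pool.Agent.Results.MP_2ad15a_nt.SmallDiscs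

/-- The Weierstrass zeta function `ζ(z) = ∑ (1/(z-l) + 1/l + z/l²)`, the sum over the lattice (the summand of
`l = 0` is `1/z`, since `1/0 = 0` in Lean). -/
noncomputable def ζ (L : PeriodPair) (z : ℂ) : ℂ :=
  ∑' l : L.lattice, (1 / (z - l) + 1 / l + z / l ^ 2)

/-- An analytic curve `p` of `r`-tuples of complex numbers outside the lattice `Ω`, no nontrivial combination of
which with coefficients in the ring of the endomorphisms of `ℂ / Ω` is constant. -/
structure Curve (U : Set ℂ) (L : PeriodPair) {r : ℕ} (p : Fin r → ℂ → ℂ) : Prop where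
  isOpen : IsOpen U
  isPreconnected : IsPreconnected U
  nonempty : U.Nonempty
  pos : 0 < r
  analytic : ∀ i, AnalyticOnNhd ℂ (p i) U
  notMem : ∀ i, ∀ z ∈ U, p i z ∉ L.lattice
  independent : ∀ (a : Fin r → ℂ) (b : ℂ), (∀ i, ∀ w ∈ L.lattice, a i * w ∈ L.lattice) →
    (∀ z ∈ U, ∑ i, a i * p i z = b) → a = 0

/-- The names of the functions `p_i`, `℘(p_i)`, `ζ(p_i)`. -/
inductive Name (r : ℕ) : Type
  | p : Fin r → Name r
  | wp : Fin r → Name r
  | zeta : Fin r → Name r

/-- The values of the functions at the point `z`. -/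
noncomputable def value (L : PeriodPair) {r : ℕ} (p : Fin r → ℂ → ℂ) (z : ℂ) : Name r → ℂ
  | Name.p i => p i z
  | Name.wp i => ℘[L] (p i z)
  | Name.zeta i => ζ L (p i z)

/-- The polynomials of degree at most `d` in each variable, all of whose coefficients are of the form `∑ ξ_i ι(c_i)`, where
the `c_i` are integers of the number field `F` all of whose conjugates have absolute value at most `H`. -/
def Admissible {σ : Type} {g : ℕ} (F : Type) [Field F] [NumberField F] (ι : F →+* ℂ) (ξ : Fin g → ℂ) (d : ℕ) (H : ℝ)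
    (P : MvPolynomial σ ℂ) : Prop :=
  (∀ y, P.degreeOf y ≤ d) ∧
    ∀ s, ∃ c : Fin g → 𝓞 F, (∀ i (φ : F →+* ℂ), ‖φ (c i)‖ ≤ H) ∧ P.coeff s = ∑ i, ξ i * ι (c i)

/-- The complex numbers `v` are good: every admissible polynomial takes at them a value which is at least `δ` times each of
its coefficients, and `π` and these numbers satisfy no relation `Q = 0` with a nonzero polynomial `Q` of degree at most `d`
in each variable whose coefficients are integers of `F` with conjugates of absolute value at most `H`. -/
def Good {σ : Type} {g : ℕ} (F : Type) [Field F] [NumberField F] (ι : F →+* ℂ) (ξ : Fin g → ℂ) (d : ℕ)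
    (H δ : ℝ) (v : σ → ℂ) : Prop :=
  (∀ P : MvPolynomial σ ℂ, Admissible F ι ξ d H P → ∀ s, δ * ‖P.coeff s‖ ≤ ‖MvPolynomial.aeval v P‖) ∧
  ∀ Q : MvPolynomial (Option σ) (𝓞 F), Q ≠ 0 → (∀ x, Q.degreeOf x ≤ d) →
    (∀ s (φ : F →+* ℂ), ‖φ ((Q.coeff s : 𝓞 F) : F)‖ ≤ H) →
    MvPolynomial.eval₂ (ι.comp (algebraMap (𝓞 F) F)) (fun o => o.elim (Real.pi : ℂ) v) Q ≠ 0

/-- The element `x` of `F` is a quotient of integers all of whose conjugates have absolute value at most `T`. -/
def HeightLe (F : Type) [Field F] [NumberField F] (T : ℝ) (x : F) : Prop :=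
  ∃ a b : 𝓞 F, b ≠ 0 ∧ (∀ φ : F →+* ℂ, ‖φ a‖ ≤ T ∧ ‖φ b‖ ≤ T) ∧ x = a / b

theorem exists_name (r : ℕ) : ∃ f : Y776.Cv.Nf r 0 → Name r, Function.Injective f ∧
    ∀ (L : PeriodPair) (p : Fin r → ℂ → ℂ) (t : Fin 0 → ℂ → ℂ) (z : ℂ) (i : Y776.Cv.Nf r 0),
      value L p z (f i) = Y776.Cv.yf (fun _ : Fin 1 => L) (fun _ => 0) p t i z := by
  let f : Y776.Cv.Nf r 0 → Name r :=
    Sum.elim (fun k => k.elim0) (Sum.elim (fun k => k.elim0) (Sum.elim Name.p (Sum.elim Name.zeta Name.wp)))
  let g : Name r → Y776.Cv.Nf r 0 := fun a => match a with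
    | Name.p i => Sum.inr (Sum.inr (Sum.inl i))
    | Name.zeta i => Sum.inr (Sum.inr (Sum.inr (Sum.inl i)))
    | Name.wp i => Sum.inr (Sum.inr (Sum.inr (Sum.inr i)))
  have hg : Function.LeftInverse g f := by
    rintro (a | a | a | a | a)
    · exact a.elim0
    · exact a.elim0
    · rfl
    · rfl
    · rfl
  refine ⟨f, hg.injective, ?_⟩
  intro L p t z i
  rcases i with a | a | a | a | a
  · exact a.elim0
  · exact a.elim0
  · rfl
  · rfl
  · rfl

/-- For `n` curves one can choose, for each `j`, `2 r_j` different functions `e_j` among the `3 r_j` functions of the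
`j`-th curve with the property stated above, for all compact sets `K_j` contained in `U_j`, and all `m`, `g`, `d`, `A`
and `δ > 0`. -/
theorem result (n : ℕ) (r : Fin n → ℕ) (U : Fin n → Set ℂ) (L : Fin n → PeriodPair) (p : ∀ j, Fin (r j) → ℂ → ℂ)
    (hU : ∀ j, Curve (U j) (L j) (p j)) :
    ∃ e : ∀ j, Fin (2 * r j) → Name (r j), (∀ j, Function.Injective (e j)) ∧
      ∀ K : Fin n → Set ℂ, (∀ j, IsCompact (K j)) → (∀ j, K j ⊆ U j) → ∀ (m g d : ℕ) (A δ : ℝ), 0 < δ →
        ∃ (B : ℝ) (C : ℕ) (T₀ : ℝ), ∀ (F : Type) [Field F] [NumberField F], Module.finrank ℚ F ≤ m →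
          ∀ (ι : F →+* ℂ) (ξ : Fin g → ℂ) (T : ℝ), T₀ ≤ T → ∀ X : Fin n → Finset F,
            (∀ j, ∀ x ∈ X j, ι x ∈ K j ∧ HeightLe F T x) → (∀ j, ∀ x ∈ X j, ∀ y ∈ X j, ‖ι x - ι y‖ ≤ T ^ (-δ)) →
            (({x : Fin n → F | (∀ j, x j ∈ X j) ∧ ¬ Good F ι ξ d (T ^ A) (T ^ (-B))
              (fun k : Σ j, Fin (2 * r j) => value (L k.1) (p k.1) (ι (x k.1)) (e k.1 k.2))}.ncard : ℝ) ≤
              C * ∑ j, ∏ i ∈ Finset.univ.erase j, ((X i).card : ℝ)) ∧
            ((∀ j, C < (X j).card) → ∃ x : Fin n → F, (∀ j, x j ∈ X j) ∧ Good F ι ξ d (T ^ A) (T ^ (-B))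
              (fun k : Σ j, Fin (2 * r j) => value (L k.1) (p k.1) (ι (x k.1)) (e k.1 k.2))) := by
  classical
  have hF : ∀ j, Y776.Cv.FxM (U j) (fun _ : Fin 1 => L j) (fun _ => 0) (p j) (fun k : Fin 0 => k.elim0) := fun j =>
    { isOpen := (hU j).isOpen
      conn := (hU j).isPreconnected
      ni := fun c c' h => absurd (Subsingleton.elim c c') h
      ua := (hU j).analytic
      un := (hU j).notMem
      ui := fun _ a b ha _ h => (hU j).independent a b ha h
      la := fun k => k.elim0
      li := fun _ _ _ => Subsingleton.elim _ _ }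
  have hsub : ∀ j, ∃ e : Fin (2 * r j) → Y776.Cv.Nf (r j) 0, Function.Injective e ∧
      ∀ t ∈ U j, Y124.LocInd (fun k => Y776.Cv.yf (fun _ : Fin 1 => L j) (fun _ => 0) (p j)
        (fun k : Fin 0 => k.elim0) (e k)) t := by
    intro j
    obtain ⟨e, he, hL⟩ := Y776.Cv.fix_sub (hF j) (by have := (hU j).pos; omega) (hU j).nonempty
    have h2 : 2 * r j = 0 + 2 * r j := by omega
    exact ⟨fun k => e (Fin.cast h2 k), he.comp (Fin.cast_injective h2), fun t ht =>
      Y776.Cv.LocInd.comp_inj (hL t ht) (Fin.cast_injective h2)⟩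
  choose e he hL using hsub
  choose nm hnm hv' using fun j => exists_name (r j)
  have hv : ∀ j z i, value (L j) (p j) z (nm j i) =
      Y776.Cv.yf (fun _ : Fin 1 => L j) (fun _ => 0) (p j) (fun k : Fin 0 => k.elim0) i z :=
    fun j z i => hv' j (L j) (p j) _ z i
  refine ⟨fun j k => nm j (e j k), fun j => (hnm j).comp (he j), ?_⟩
  intro K hK hKU m g d A δ hδ
  have hfun : ∀ (j : Fin n) (k : Fin (2 * r j)), (fun z => value (L j) (p j) z (nm j (e j k))) =
      Y776.Cv.yf (fun _ : Fin 1 => L j) (fun _ => 0) (p j) (fun k : Fin 0 => k.elim0) (e j k) :=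
    fun j k => funext fun z => hv j z _
  exact Pool.Agent.R349.Gen.shortS m n g d (κ := fun j => Fin (2 * r j)) (fun j => (hU j).isOpen)
    (fun j => (hU j).isPreconnected) (fun j k z => value (L j) (p j) z (nm j (e j k)))
    (fun j k => by
      rw [hfun j k]
      exact Y776.Cv.yf_an (hF j) _)
    (fun j t ht => by
      have h1 : (fun (k : Fin (2 * r j)) z => value (L j) (p j) z (nm j (e j k))) = fun k =>
          Y776.Cv.yf (fun _ : Fin 1 => L j) (fun _ => 0) (p j) (fun k : Fin 0 => k.elim0) (e j k) :=
        funext fun k => hfun j k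
      rw [h1]
      exact hL j t ht) K hK hKU A δ hδ

end Pool.Agent.Results.MP_2ad15a_nt.SmallDiscs
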